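import Pool.Agent.T9h94.EX.Two2

set_option autoImplicit false

open Complex Filter Topology Metric Set
open scoped ContDiff
open Pool.Agent.Helper797.Bs
open Pool.Agent.K7.H38.MD

namespace Pool.Agent.T9h94.EX2

open Pool.Agent.T9h72.EX

/-- second derivative at `0` of `z ↦ G (z ^ 2)` -/
lemma deriv2_sq {G : ℂ → ℂ} (hG : Differentiable ℂ G) :
    deriv (fun z => G (z ^ 2)) = (fun z => 2 * z * deriv G (z ^ 2)) ∧
      HasDerivAt (fun z : ℂ => 2 * z * deriv G (z ^ 2)) (2 * deriv G 0) 0 := by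
  constructor
  · ext z
    have h1 : HasDerivAt (fun s : ℂ => s ^ 2) (2 * z) z := by simpa using hasDerivAt_pow 2 z
    have h2 : HasDerivAt G (deriv G (z ^ 2)) (z ^ 2) := (hG _).hasDerivAt
    have h3 : HasDerivAt (fun z => G (z ^ 2)) (deriv G (z ^ 2) * (2 * z)) z := h2.comp z h1
    rw [h3.deriv]; ring
  · have h1 : HasDerivAt (fun z : ℂ => 2 * z) 2 (0:ℂ) := by
      simpa using (hasDerivAt_id (0:ℂ)).const_mul 2
    have h2 : DifferentiableAt ℂ (fun z : ℂ => deriv G (z ^ 2)) 0 :=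
      (hG.deriv.comp (by fun_prop)) 0
    have h3 := h1.mul h2.hasDerivAt
    have e : (2 : ℂ) * deriv G (0 ^ 2) + 2 * 0 * deriv (fun z : ℂ => deriv G (z ^ 2)) 0 = 2 * deriv G 0 := by
      rw [zero_pow two_ne_zero]; ring
    rw [e] at h3
    exact h3

lemma cw_deriv : deriv cw 0 = -(1 / (2 * (a : ℂ))) := by
  rw [← H_zero]
  unfold H
  rw [dslope_same]

lemma sw_deriv : deriv sw 0 = -(1 / (2 * (a : ℂ) ^ 3)) := by
  have ha : (a : ℂ) ≠ 0 := by exact_mod_cast a_pos.ne'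
  have h1 := ev_deriv snc_diff snc_neg ha (snc_deriv ha)
  have h2 : HasDerivAt (ev snc) (deriv (ev snc) ((a : ℂ) ^ 2)) (0 + (a : ℂ) ^ 2) := by
    rw [zero_add]; exact (evsnc_diff _).hasDerivAt
  have h3 : HasDerivAt sw (deriv (ev snc) ((a : ℂ) ^ 2)) 0 := h2.comp_add_const 0 _
  rw [h3.deriv, h1, sin_a, cos_a]
  field_simp
  ring

lemma sw_zero : sw 0 = 1 / (a : ℂ) := by
  have ha : (a : ℂ) ≠ 0 := by exact_mod_cast a_pos.ne'
  rw [sw_eq (s := (a : ℂ)) (by ring), snc_ne ha, sin_a]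

theorem val : S_VAL := by
  intro α β
  have ha : (a : ℂ) ≠ 0 := by exact_mod_cast a_pos.ne'
  have hc2 : Differentiable ℂ fun z : ℂ => cw (z ^ 2) := cw_diff.comp (by fun_prop)
  have hs2 : Differentiable ℂ fun z : ℂ => sw (z ^ 2) := sw_diff.comp (by fun_prop)
  obtain ⟨dc, dc2⟩ := deriv2_sq cw_diff
  obtain ⟨ds, ds2⟩ := deriv2_sq sw_diff
  have hcz : ∀ z, HasDerivAt (fun z : ℂ => cw (z ^ 2)) (2 * z * deriv cw (z ^ 2)) z := fun z => by
    have := (hc2 z).hasDerivAt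
    rwa [dc] at this
  have hsz : ∀ z, HasDerivAt (fun z : ℂ => sw (z ^ 2)) (2 * z * deriv sw (z ^ 2)) z := fun z => by
    have := (hs2 z).hasDerivAt
    rwa [ds] at this
  have hl : ∀ z : ℂ, HasDerivAt (fun z : ℂ => I * (α * z + β)) (I * α) z := fun z => by
    have := (((hasDerivAt_id z).const_mul (α : ℂ)).add_const (β : ℂ)).const_mul I
    simpa using this
  have d1 : deriv (fun z : ℂ => -(cw (z ^ 2)) + I * (α * z + β) * sw (z ^ 2)) =
      fun z : ℂ => -(2 * z * deriv cw (z ^ 2)) + (I * α * sw (z ^ 2) +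
        I * (α * z + β) * (2 * z * deriv sw (z ^ 2))) := by
    ext z
    exact ((hcz z).neg.add ((hl z).mul (hsz z))).deriv
  unfold U
  rw [d1]
  have d2 : HasDerivAt (fun z : ℂ => -(2 * z * deriv cw (z ^ 2)) + (I * α * sw (z ^ 2) +
        I * (α * z + β) * (2 * z * deriv sw (z ^ 2))))
      (-(2 * deriv cw 0) + (I * α * (2 * 0 * deriv sw (0 ^ 2)) +
        (I * α * (2 * 0 * deriv sw (0 ^ 2)) + I * (α * 0 + β) * (2 * deriv sw 0)))) 0 :=
    dc2.neg.add (((hsz 0).const_mul (I * α)).add ((hl 0).mul ds2))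
  rw [d2.deriv, cw_deriv, sw_deriv]
  simp only []
  rw [zero_pow two_ne_zero, cw_zero, sw_zero]
  have hpi : (a : ℂ) = Real.pi / 2 := by unfold a; push_cast; ring
  have hpi0 : (Real.pi : ℂ) ≠ 0 := by exact_mod_cast Real.pi_ne_zero
  rw [hpi]
  push_cast
  field_simp
  ring

theorem conv' : S_CONV := conv val

end Pool.Agent.T9h94.EX2
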