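import Pool.Agent.K7.H38.MD.Norm

set_option autoImplicit false

open Complex Filter Topology Metric Set
open scoped ContDiff
open Pool.Agent.Helper797.Bs
open Pool.Agent.K7.H38.MD

namespace Pool.Agent.T9h94.EX

/-- the one-dimensional extremals -/
def S_ONE : Prop := ∀ F : ℂ → ℂ, Differentiable ℂ F → (∀ z, ‖F z‖ ≤ Real.exp |z.im|) →
  U F = ((2 / Real.pi : ℝ) : ℂ) →
  ∃ α β : ℝ, α ^ 2 + (4 / Real.pi ^ 2) * β ^ 2 ≤ 1 ∧
    ∀ z, F z = -(cw (z ^ 2)) + I * (α * z + β) * sw (z ^ 2)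

/-- the value of the functional on them -/
def S_CONV : Prop := ∀ α β : ℝ, α ^ 2 + (4 / Real.pi ^ 2) * β ^ 2 ≤ 1 →
  U (fun z => -(cw (z ^ 2)) + I * (α * z + β) * sw (z ^ 2)) = ((2 / Real.pi : ℝ) : ℂ)

lemma U_neg {G : ℂ → ℂ} : U (fun z => -G z) = -U G := by
  unfold U
  have h1 : deriv (fun z => -G z) = fun z => -deriv G z := by
    funext z; exact deriv.fun_neg
  rw [h1]
  have h2 : deriv (fun z => -deriv G z) 0 = -deriv (deriv G) 0 := deriv.fun_neg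
  rw [h2]
  ring

lemma eq_of_sub {u v : ℂ} {c : ℝ} (hu : ‖u‖ ≤ c) (hv : ‖v‖ ≤ c) (h : (u - v) / 2 = (c : ℂ)) :
    u = (c : ℂ) ∧ v = -(c : ℂ) := by
  have hre : u.re - v.re = 2 * c := by
    have := congrArg Complex.re h
    have e : ((u - v) / 2).re = (u.re - v.re) / 2 := by
      rw [show (2 : ℂ) = ((2 : ℝ) : ℂ) by norm_num, Complex.div_ofReal_re, Complex.sub_re]
    rw [e, Complex.ofReal_re] at this
    linarith
  have h1 : u.re ≤ c := (Complex.re_le_norm u).trans hu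
  have h2 : -v.re ≤ c := by
    have := (Complex.abs_re_le_norm v)
    have h3 := neg_abs_le v.re
    linarith
  have h3 : u.re = c := by linarith
  have h4 : v.re = -c := by linarith
  have hc : 0 ≤ c := (norm_nonneg u).trans hu
  have h5 : u.im = 0 := by
    have e := Complex.sq_norm u
    rw [Complex.normSq_apply, h3] at e
    have : ‖u‖ ^ 2 ≤ c ^ 2 := by gcongr
    nlinarith [sq_nonneg u.im]
  have h6 : v.im = 0 := by
    have e := Complex.sq_norm v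
    rw [Complex.normSq_apply, h4] at e
    have : ‖v‖ ^ 2 ≤ c ^ 2 := by gcongr
    nlinarith [sq_nonneg v.im]
  constructor
  · apply Complex.ext <;> simp [h3, h5]
  · apply Complex.ext <;> simp [h4, h6]

lemma sw_real {r : ℝ} (hr : 0 ≤ r) :
    sw (r : ℂ) = ((Real.sin √(r + a ^ 2) / √(r + a ^ 2) : ℝ) : ℂ) := by
  have hp : 0 < r + a ^ 2 := by have := a_pos; positivity
  have hs : 0 < √(r + a ^ 2) := Real.sqrt_pos.2 hp
  rw [sw_eq (s := ((√(r + a ^ 2) : ℝ) : ℂ)), snc_ne]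
  · push_cast; rfl
  · exact_mod_cast hs.ne'
  · rw [← Complex.ofReal_pow, Real.sq_sqrt hp.le]
    push_cast
    ring

/-- The one-dimensional extremal function on the real line. -/
noncomputable def ext1 (α β t : ℝ) : ℂ :=
  ((-Real.cos √(t ^ 2 + Real.pi ^ 2 / 4) : ℝ) : ℂ) +
    I * ((((α * t + β) * (Real.sin √(t ^ 2 + Real.pi ^ 2 / 4) / √(t ^ 2 + Real.pi ^ 2 / 4)) : ℝ)) : ℂ)

lemma a_sq : a ^ 2 = Real.pi ^ 2 / 4 := by unfold a; ring

lemma ext1_eq (α β t : ℝ) :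
    -(cw ((t : ℂ) ^ 2)) + I * (α * t + β) * sw ((t : ℂ) ^ 2) = ext1 α β t := by
  have e : ((t : ℂ)) ^ 2 = ((t ^ 2 : ℝ) : ℂ) := by push_cast; ring
  rw [e, cw_real (sq_nonneg t), sw_real (sq_nonneg t), a_sq]
  unfold ext1
  push_cast
  ring

lemma line_p {F : ℂ × ℂ → ℂ} (t : ℝ) : line F ((0 : ℝ), (0 : ℝ)) vp t = F (((hs * t : ℝ) : ℂ), ((hs * t : ℝ) : ℂ)) := by
  unfold line vp
  congr 1
  ext <;> simp [mul_comm]

lemma line_m {F : ℂ × ℂ → ℂ} (t : ℝ) : line F ((0 : ℝ), (0 : ℝ)) vm t = F (((hs * t : ℝ) : ℂ), ((-(hs * t) : ℝ) : ℂ)) := by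
  unfold line vm
  congr 1
  ext <;> simp [mul_comm]

/-- two entire functions which agree on the real line are equal -/
lemma ident {f g : ℂ → ℂ} (hf : Differentiable ℂ f) (hg : Differentiable ℂ g)
    (h : ∀ t : ℝ, f t = g t) : f = g := by
  have hfa : AnalyticOnNhd ℂ f univ := fun z _ => hf.analyticAt z
  have hga : AnalyticOnNhd ℂ g univ := fun z _ => hg.analyticAt z
  apply hfa.eq_of_frequently_eq hga (z₀ := 0)
  have h1 : Tendsto (fun n : ℕ => ((1 / ((n : ℝ) + 1) : ℝ) : ℂ)) atTop (𝓝[≠] 0) := by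
    rw [tendsto_nhdsWithin_iff]
    constructor
    · have := tendsto_one_div_add_atTop_nhds_zero_nat (𝕜 := ℝ)
      have h2 := (Complex.continuous_ofReal.tendsto 0).comp this
      rw [Complex.ofReal_zero] at h2
      exact h2
    · filter_upwards with n
      have : (1 / ((n : ℝ) + 1) : ℝ) ≠ 0 := by positivity
      have h3 : ((1 / ((n : ℝ) + 1) : ℝ) : ℂ) ≠ 0 := Complex.ofReal_ne_zero.2 this
      exact h3
  exact h1.frequently (Filter.Eventually.frequently (by filter_upwards with n using h _))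

theorem two (one : S_ONE) (conv : S_CONV) {f : ℝ × ℝ → ℂ} (hf : f ∈ B) (hM : ∀ p, ‖f p‖ ≤ 1) :
    T f 0 = ((2 / Real.pi : ℝ) : ℂ) ↔
    ∃ α γ β : ℝ, α ^ 2 + (4 / Real.pi ^ 2) * β ^ 2 ≤ 1 ∧ γ ^ 2 + (4 / Real.pi ^ 2) * β ^ 2 ≤ 1 ∧
      (∀ t : ℝ, f (√(1 / 2) * t, √(1 / 2) * t) = ext1 α β t) ∧
      ∀ t : ℝ, f (√(1 / 2) * t, -(√(1 / 2) * t)) = -ext1 γ (-β) t := by
  obtain ⟨-, F, hF, hfF⟩ := hf
  have hM' : ∀ x y : ℝ, ‖F ((x : ℂ), (y : ℂ))‖ ≤ 1 := fun x y => by rw [← hfF]; exact hM _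
  have hT := T_lines hF.1 hfF 0
  simp only [Prod.fst_zero, Prod.snd_zero] at hT
  have hp : ∀ t : ℝ, line F ((0 : ℝ), (0 : ℝ)) vp t = f (√(1 / 2) * t, √(1 / 2) * t) := fun t => by
    rw [line_p, hfF]; rfl
  have hm : ∀ t : ℝ, line F ((0 : ℝ), (0 : ℝ)) vm t = f (√(1 / 2) * t, -(√(1 / 2) * t)) := fun t => by
    rw [line_m, hfF]; rfl
  have dp := line_diff hF.1 (((0 : ℝ) : ℂ), ((0 : ℝ) : ℂ)) vp
  have dm := line_diff hF.1 (((0 : ℝ) : ℂ), ((0 : ℝ) : ℂ)) vm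
  have gp := growth_p hF hM' 0 0
  have gm := growth_m hF hM' 0 0
  have up := U_le dp zero_le_one gp
  have um := U_le dm zero_le_one gm
  rw [mul_one] at up um
  have hd1 : ∀ α β : ℝ, Differentiable ℂ fun z : ℂ => -(cw (z ^ 2)) + I * (α * z + β) * sw (z ^ 2) := by
    intro α β
    have h1 : Differentiable ℂ fun z : ℂ => cw (z ^ 2) := cw_diff.comp (by fun_prop)
    have h2 : Differentiable ℂ fun z : ℂ => sw (z ^ 2) := sw_diff.comp (by fun_prop)
    fun_prop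
  constructor
  · intro h
    rw [hT] at h
    obtain ⟨h1, h2⟩ := eq_of_sub up um h
    obtain ⟨α, β, hab, hG⟩ := one _ dp (fun z => by simpa using gp z) h1
    obtain ⟨γ, δ, hgd, hK⟩ := one (fun z => -line F (((0 : ℝ) : ℂ), ((0 : ℝ) : ℂ)) vm z) dm.neg
      (fun z => by simpa using gm z) (by rw [U_neg, h2]; simp)
    have e1 : ∀ t : ℝ, f (√(1 / 2) * t, √(1 / 2) * t) = ext1 α β t := fun t => by
      rw [← hp, hG, ext1_eq]
    have e2 : ∀ t : ℝ, f (√(1 / 2) * t, -(√(1 / 2) * t)) = -ext1 γ δ t := fun t => by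
      have := hK t
      rw [ext1_eq, hm] at this
      rw [← this, neg_neg]
    have hb : δ = -β := by
      have e3 := e1 0
      have e4 := e2 0
      have hz : ((√(1 / 2) * (0 : ℝ), -(√(1 / 2) * (0 : ℝ))) : ℝ × ℝ) = (√(1 / 2) * (0 : ℝ), √(1 / 2) * (0 : ℝ)) := by
        simp
      rw [hz, e3] at e4
      unfold ext1 at e4
      have e5 := congrArg Complex.im e4
      have hs : √((0 : ℝ) ^ 2 + Real.pi ^ 2 / 4) = Real.pi / 2 := by
        rw [show (0 : ℝ) ^ 2 + Real.pi ^ 2 / 4 = (Real.pi / 2) ^ 2 by ring]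
        exact Real.sqrt_sq (by positivity)
      rw [hs, Real.sin_pi_div_two, Real.cos_pi_div_two] at e5
      simp only [neg_zero, Complex.ofReal_zero, zero_add, mul_zero, Complex.neg_im, Complex.I_mul_im,
        Complex.ofReal_re] at e5
      have hpi := Real.pi_pos
      have : (β + δ) * (1 / (Real.pi / 2)) = 0 := by linarith
      rcases mul_eq_zero.1 this with h | h
      · linarith
      · exfalso
        have : 0 < 1 / (Real.pi / 2) := by positivity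
        linarith
    refine ⟨α, γ, β, hab, ?_, e1, fun t => ?_⟩
    · rw [hb] at hgd; nlinarith
    · rw [e2, hb]
  · rintro ⟨α, γ, β, hab, hgb, e1, e2⟩
    rw [hT]
    have k1 : line F (((0 : ℝ) : ℂ), ((0 : ℝ) : ℂ)) vp =
        fun z : ℂ => -(cw (z ^ 2)) + I * (α * z + β) * sw (z ^ 2) := by
      apply ident dp (hd1 α β)
      intro t
      rw [hp, e1, ext1_eq]
    have k2 : line F (((0 : ℝ) : ℂ), ((0 : ℝ) : ℂ)) vm =
        fun z : ℂ => -(-(cw (z ^ 2)) + I * (γ * z + ((-β : ℝ) : ℂ)) * sw (z ^ 2)) := by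
      apply ident dm (hd1 γ (-β)).neg
      intro t
      rw [hm, e2]
      exact congrArg Neg.neg (ext1_eq γ (-β) t).symm
    rw [k1, k2, U_neg, conv α β hab, conv γ (-β) (by nlinarith)]
    push_cast
    ring

/-- The extremal functions on the real line, with the sign `e` of the cosine. -/
noncomputable def ext2 (e α β t : ℝ) : ℂ :=
  ((-e * Real.cos √(t ^ 2 + Real.pi ^ 2 / 4) : ℝ) : ℂ) +
    I * ((((α * t + β) * (Real.sin √(t ^ 2 + Real.pi ^ 2 / 4) / √(t ^ 2 + Real.pi ^ 2 / 4)) : ℝ)) : ℂ)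

/-- The normal extremals: the restrictions to the two diagonals. -/
theorem two' (one : S_ONE) (conv : S_CONV) {f : ℝ × ℝ → ℂ} (hf : f ∈ B) (hM : ∀ p, ‖f p‖ ≤ 1) :
    T f 0 = ((2 / Real.pi : ℝ) : ℂ) ↔
    ∃ α γ β : ℝ, α ^ 2 + (4 / Real.pi ^ 2) * β ^ 2 ≤ 1 ∧ γ ^ 2 + (4 / Real.pi ^ 2) * β ^ 2 ≤ 1 ∧
      (∀ t : ℝ, f (√(1 / 2) * t, √(1 / 2) * t) = ext2 1 α β t) ∧
      ∀ t : ℝ, f (√(1 / 2) * t, -(√(1 / 2) * t)) = ext2 (-1) γ β t := by
  rw [two one conv hf hM]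
  constructor
  · rintro ⟨α, γ, β, h1, h2, h3, h4⟩
    refine ⟨α, -γ, β, h1, by rw [neg_sq]; exact h2, fun t => ?_, fun t => ?_⟩
    · rw [h3]; unfold ext1 ext2; push_cast; ring
    · rw [h4]; unfold ext1 ext2; push_cast; ring
  · rintro ⟨α, γ, β, h1, h2, h3, h4⟩
    refine ⟨α, -γ, β, h1, by rw [neg_sq]; exact h2, fun t => ?_, fun t => ?_⟩
    · rw [h3]; unfold ext1 ext2; push_cast; ring
    · rw [h4]; unfold ext1 ext2; push_cast; ring

end Pool.Agent.T9h94.EX
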